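import Mathlib
import Pool.Agent.Y730.RF.CycB

set_option autoImplicit false

/-!
# Small points relative to radicals of infinitely many prime orders, with roots of unity

All fields are subfields of `AlgebraicClosure ℚ`; subgroups of the multiplicative group are
subgroups of the unit group of `AlgebraicClosure ℚ`.
-/

namespace Pool.Agent.Results.MP_f61260_nt.MixedRadicalFields

/-- `β` lies in the division group of `Γ`: a positive power of `β` is an element of `Γ` -/
def InDivisionGroup (Γ : Subgroup (AlgebraicClosure ℚ)ˣ) (β : AlgebraicClosure ℚ) : Prop :=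
  ∃ n : ℕ, 0 < n ∧ ∃ g ∈ Γ, β ^ n = (g : AlgebraicClosure ℚ)

/-- the field generated over `K` by all roots of unity and by all `n`-th roots of all elements of
`Γ`, for all positive integers `n` all of whose prime factors belong to `P₀` -/
noncomputable def smoothRootField (K : IntermediateField ℚ (AlgebraicClosure ℚ))
    (Γ : Subgroup (AlgebraicClosure ℚ)ˣ) (P₀ : Finset ℕ) :
    IntermediateField ℚ (AlgebraicClosure ℚ) :=
  K ⊔ IntermediateField.adjoin ℚ
    ({y | ∃ n : ℕ, 0 < n ∧ y ^ n = 1} ∪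
      {y | ∃ n : ℕ, (0 < n ∧ ∀ q : ℕ, q.Prime → q ∣ n → q ∈ P₀) ∧
        ∃ g ∈ Γ, y ^ n = (g : AlgebraicClosure ℚ)})

/-- the field generated by all roots of unity of order composed of primes in `S` -/
noncomputable def cyclotomicField (S : Set ℕ) : IntermediateField ℚ (AlgebraicClosure ℚ) :=
  IntermediateField.adjoin ℚ
    {y | ∃ m : ℕ, (0 < m ∧ ∀ p : ℕ, p.Prime → p ∣ m → p ∈ S) ∧ y ^ m = 1}

/-- `p` is a Wieferich prime to the base `a`: a prime with `p ∤ a` and `p² ∣ a^(p-1) - 1` -/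
def IsWieferich (a p : ℕ) : Prop :=
  p.Prime ∧ ¬ p ∣ a ∧ (p : ℤ) ^ 2 ∣ (a : ℤ) ^ (p - 1) - 1

/-- the Wieferich primes in `P` are odd and the sum of `(log p) / p` over them is at most
`(log a) / 40` -/
def FewWieferich (a : ℕ) (P : Set ℕ) : Prop :=
  ∀ F : Finset ℕ, (∀ p ∈ F, p ∈ P ∧ IsWieferich a p) →
    2 ∉ F ∧ ∑ p ∈ F, Real.log p / p ≤ Real.log a / 40

/-- the positive integers all of whose prime factors belong to `P` and which are not divisible by
the square of a Wieferich prime -/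
def Exponents (a : ℕ) (P : Set ℕ) : Set ℕ :=
  {n | 0 < n ∧ ∀ p : ℕ, p.Prime → p ∣ n → p ∈ P ∧ (IsWieferich a p → ¬ p ^ 2 ∣ n)}

/-- `ρ n` is a compatible choice of `a^(1/n)`, for all `n` -/
def IsRootSystem (a : ℕ) (ρ : ℕ → AlgebraicClosure ℚ) : Prop :=
  ρ 1 = a ∧ ∀ m n : ℕ, 0 < m → 0 < n → ρ (m * n) ^ m = ρ n

/-- the primes which belong to `P` or divide `a` -/
def primesOf (a : ℕ) (P : Set ℕ) : Set ℕ := {p | p.Prime ∧ (p ∈ P ∨ p ∣ a)}

/-- the primes of `T` divide no discriminant of a number field contained in `B` -/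
def UnramifiedAt (B : IntermediateField ℚ (AlgebraicClosure ℚ)) (T : Set ℕ) : Prop :=
  ∀ F : IntermediateField ℚ (AlgebraicClosure ℚ), F ≤ B → ∀ _ : NumberField F,
    ∀ p ∈ T, ¬ (p : ℤ) ∣ NumberField.discr F

/-- `a₁, …, a_r` are squarefree integers at least `2`, there are few Wieferich primes to the base
`a_i` in the set `P_i`, no prime belongs to two of the sets `P_i ∪ {p ∣ a_i}`, and `ρ i` is a
compatible choice of the roots of `a_i` -/
def Data {r : ℕ} (a : Fin r → ℕ) (P : Fin r → Set ℕ) (ρ : Fin r → ℕ → AlgebraicClosure ℚ) : Prop :=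
  (∀ i, Squarefree (a i) ∧ 2 ≤ a i ∧ FewWieferich (a i) (P i) ∧ IsRootSystem (a i) (ρ i)) ∧
    ∀ i j, i ≠ j → Disjoint (primesOf (a i) (P i)) (primesOf (a j) (P j))

/-- the field generated over `B` by the roots `a_i^(1/n)`, `n ∈ Exponents a_i P_i` -/
noncomputable def radicalField {r : ℕ} (B : IntermediateField ℚ (AlgebraicClosure ℚ))
    (a : Fin r → ℕ) (P : Fin r → Set ℕ) (ρ : Fin r → ℕ → AlgebraicClosure ℚ) :
    IntermediateField ℚ (AlgebraicClosure ℚ) :=
  B ⊔ IntermediateField.adjoin ℚ {y | ∃ i, ∃ n ∈ Exponents (a i) (P i), y = ρ i n}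

/-- the group generated by `a₁, …, a_r` -/
noncomputable def group {r : ℕ} (a : Fin r → ℕ) : Subgroup (AlgebraicClosure ℚ)ˣ :=
  Subgroup.closure {g | ∃ i, (g : AlgebraicClosure ℚ) = a i}

open Pool.Agent.Y730.RD in
lemma admissible {a : ℕ} {P : Set ℕ} (hP : FewWieferich a P) {n : ℕ} (hn : n ∈ Exponents a P) :
    Admissible a n := by
  obtain ⟨hn0, h⟩ := hn
  have hmem : ∀ p ∈ wiefPrimes a n, p ∈ P ∧ IsWieferich a p := by
    intro p hp
    obtain ⟨h1, h2, h3, h4⟩ := (mem_wiefPrimes hn0).1 hp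
    exact ⟨(h p h1 h2).1, h1, h3, h4⟩
  have h1 := hP (wiefPrimes a n) hmem
  refine ⟨hn0, fun p hp => ⟨?_, ?_⟩, ?_⟩
  · rintro rfl
    exact h1.1 hp
  · obtain ⟨h2, h3, h4, h5⟩ := (mem_wiefPrimes hn0).1 hp
    exact (h p h2 h3).2 (hmem p hp).2
  · have := h1.2
    linarith

lemma exponents_lcm {a : ℕ} {P : Set ℕ} {m n : ℕ} (hm : m ∈ Exponents a P)
    (hn : n ∈ Exponents a P) : Nat.lcm m n ∈ Exponents a P := by
  refine ⟨Nat.lcm_pos hm.1 hn.1, fun p hp hpl => ?_⟩
  refine ⟨?_, fun hw h2 => ?_⟩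
  · rcases (hp.dvd_mul).1 (hpl.trans (Nat.lcm_dvd_mul m n)) with h | h
    · exact (hm.2 p hp h).1
    · exact (hn.2 p hp h).1
  · have h3 : p ^ 2 ∣ m ∨ p ^ 2 ∣ n := by
      have hl0 : Nat.lcm m n ≠ 0 := (Nat.lcm_pos hm.1 hn.1).ne'
      rw [hp.pow_dvd_iff_le_factorization hl0, Nat.factorization_lcm hm.1.ne' hn.1.ne',
        Finsupp.sup_apply] at h2
      rcases le_sup_iff.1 h2 with h | h
      · left
        exact (hp.pow_dvd_iff_le_factorization hm.1.ne').2 h
      · right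
        exact (hp.pow_dvd_iff_le_factorization hn.1.ne').2 h
    rcases h3 with h | h
    · exact (hm.2 p hp ((dvd_pow_self p two_ne_zero).trans h)).2 hw h
    · exact (hn.2 p hp ((dvd_pow_self p two_ne_zero).trans h)).2 hw h

lemma one_exponents (a : ℕ) (P : Set ℕ) : 1 ∈ Exponents a P :=
  ⟨one_pos, fun _ hp h => absurd (Nat.dvd_one.1 h) hp.one_lt.ne'⟩

open IntermediateField Pool.Agent.Y730.RF in
/-- the general theorem -/
theorem general (K : IntermediateField ℚ (AlgebraicClosure ℚ)) (hK : FiniteDimensional ℚ K)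
    (Γ : Subgroup (AlgebraicClosure ℚ)ˣ) (hΓ : Γ.FG) (P₀ : Finset ℕ) (hP₀ : ∀ p ∈ P₀, p.Prime) :
    ∃ c : ℝ, 0 < c ∧ ∀ B : IntermediateField ℚ (AlgebraicClosure ℚ), B ≤ smoothRootField K Γ P₀ →
      (∀ g ∈ Γ, (g : AlgebraicClosure ℚ) ∈ B) →
      ∀ (r : ℕ) (a : Fin r → ℕ) (P : Fin r → Set ℕ) (ρ : Fin r → ℕ → AlgebraicClosure ℚ),
        Data a P ρ → (∀ i, UnramifiedAt B (primesOf (a i) (P i))) →
        ∀ β ∈ radicalField B a P ρ, β ≠ 0 → ¬ InDivisionGroup (Γ ⊔ group a) β →
          c / 4000 ^ r ≤ NumberField.absLogHeight₁ β := by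
  obtain ⟨c, hc, hc1, hbase⟩ := base K hK Γ hΓ P₀ hP₀
  refine ⟨c, hc, fun B hB hΓB r a P ρ hdata hunr β hβ hβ0 hnd => ?_⟩
  obtain ⟨hd, hdisj⟩ := hdata
  obtain ⟨F₀, hF₀, hF₀B, hΓF₀⟩ := exists_fd hΓ B hΓB
  -- finitely many generators
  have hβ' : β ∈ IntermediateField.adjoin ℚ ((B : Set (AlgebraicClosure ℚ)) ∪
      {y | ∃ i, ∃ n ∈ Exponents (a i) (P i), y = ρ i n}) := by
    have hle : radicalField B a P ρ ≤ IntermediateField.adjoin ℚ
        ((B : Set (AlgebraicClosure ℚ)) ∪ {y | ∃ i, ∃ n ∈ Exponents (a i) (P i), y = ρ i n}) := by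
      apply sup_le
      · intro z hz
        exact subset_adjoin _ _ (Or.inl hz)
      · rw [adjoin_le_iff]
        intro z hz
        exact subset_adjoin _ _ (Or.inr hz)
    exact hle hβ
  obtain ⟨T, hT, hβT⟩ := exists_finset_of_mem_adjoin hβ'
  have hstep : ∀ (i : Fin r) (m n : ℕ), 0 < n → m ∣ n → ρ i m ∈ ℚ⟮ρ i n⟯ := by
    rintro i m n hn ⟨k, rfl⟩
    have hk : 0 < k := Nat.pos_of_ne_zero (by rintro rfl; simp at hn)
    have hm : 0 < m := Nat.pos_of_ne_zero (by rintro rfl; simp at hn)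
    rw [← (hd i).2.2.2.2 k m hk hm, mul_comm m k]
    exact pow_mem (mem_adjoin_simple_self ℚ _) _
  obtain ⟨F, hF, hF₀F, hFB, n, hn, hTn⟩ := extract B F₀ hF₀B
    (fun i => Exponents (a i) (P i)) (fun i => one_exponents _ _) (fun i n hn => hn.1)
    (fun i m hm n hn => exponents_lcm hm hn) ρ hstep T (fun y hy => hT hy)
  have hG := hbase F hF (hFB.trans hB) (fun g hg => hF₀F (hΓF₀ g hg))
  have hT' : ∀ i, ∀ p : ℕ, p.Prime → p ∣ n i * a i → p ∈ primesOf (a i) (P i) := by
    intro i p hp h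
    refine ⟨hp, ?_⟩
    rcases (hp.dvd_mul).1 h with h | h
    · exact Or.inl ((hn i).2 p hp h).1
    · exact Or.inr h
  obtain ⟨E, hE, Γ', hFE, hρE, hΓ', hGE⟩ := iterate a (fun i => (hd i).2.1) (fun i => (hd i).1)
    hc hc1 hG n (fun i => ρ i (n i)) (fun i => admissible (hd i).2.2.1 (hn i))
    (fun i => by
      have := (hd i).2.2.2.2 (n i) 1 (hn i).1 one_pos
      rw [mul_one] at this
      rw [this, (hd i).2.2.2.1])
    (fun i => by
      apply Nat.coprime_of_dvd
      intro p hp h1 h2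
      exact hunr i F hFB inferInstance p (hT' i p hp h1) (Int.natCast_dvd.2 h2))
    (fun i j hij => by
      apply Nat.coprime_of_dvd
      intro p hp h1 h2
      exact Set.disjoint_left.1 (hdisj i j hij) (hT' i p hp h1) (hT' j p hp h2))
    Finset.univ
  have hβE : β ∈ E := by
    have hle : IntermediateField.adjoin ℚ (↑T : Set (AlgebraicClosure ℚ)) ≤ E := by
      rw [adjoin_le_iff]
      intro y hy
      rcases hTn y hy with h | ⟨i, h⟩
      · exact hFE h
      · have h1 : ℚ⟮ρ i (n i)⟯ ≤ E := by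
          rw [adjoin_simple_le_iff]
          exact hρE i (Finset.mem_univ i)
        exact h1 h
    exact hle hβT
  by_contra hlt
  push Not at hlt
  have hdiv := hGE.small 1 one_pos (Nat.coprime_one_left _) 1 IsPrimitiveRoot.one β
    ((le_sup_left : E ≤ E ⊔ ℚ⟮(1 : AlgebraicClosure ℚ)⟯) hβE) hβ0 (by
      rw [Finset.card_univ, Fintype.card_fin]
      exact hlt)
  apply hnd
  refine InDiv.mono ?_ hdiv
  refine hΓ'.trans (sup_le_sup le_rfl ?_)
  rw [Subgroup.closure_le]
  rintro _ ⟨i, rfl⟩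
  exact Subgroup.subset_closure ⟨i, rfl⟩

/-- **Small points relative to radicals of infinitely many prime orders, with roots of unity.**

(A) Let `K` be a number field, `Γ` a finitely generated subgroup of `ℚ̄*` and `P₀` a finite set of
primes. There is `c > 0` such that the following holds for every field `B` with
`Γ ⊂ B ⊂ K(μ_∞, Γ^{1/n} : n a product of primes of P₀)`. Let `a₁, …, a_r ≥ 2` be squarefree integers
and let `P₁, …, P_r` be sets of primes, finite or infinite, such that the sets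
`T_i = P_i ∪ {p ∣ a_i}` are pairwise disjoint, the primes in all `T_i` are unramified in `B`, and
the Wieferich primes `p ∈ P_i` to the base `a_i` are odd and satisfy
`∑ (log p) / p ≤ (log a_i) / 40`. Let `L` be the field generated over `B` by compatible roots
`a_i^{1/n}` for all `i` and all `n` composed of primes of `P_i` and not divisible by the square of a
Wieferich prime. Then every nonzero `β ∈ L` which does not lie in the division group of
`Γ⟨a₁, …, a_r⟩` has absolute logarithmic Weil height at least `c / 4000^r`.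

(B) In particular, there is an absolute constant `c > 0` such that this holds with `Γ = 1` and with
`B` the field generated by all roots of unity of order composed of the primes in a set `S` which is
disjoint from all `T_i`. -/
theorem result :
    (∀ (K : IntermediateField ℚ (AlgebraicClosure ℚ)), FiniteDimensional ℚ K →
      ∀ (Γ : Subgroup (AlgebraicClosure ℚ)ˣ), Γ.FG →
      ∀ (P₀ : Finset ℕ), (∀ p ∈ P₀, p.Prime) →
      ∃ c : ℝ, 0 < c ∧
        ∀ B : IntermediateField ℚ (AlgebraicClosure ℚ), B ≤ smoothRootField K Γ P₀ →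
        (∀ g ∈ Γ, (g : AlgebraicClosure ℚ) ∈ B) →
        ∀ (r : ℕ) (a : Fin r → ℕ) (P : Fin r → Set ℕ) (ρ : Fin r → ℕ → AlgebraicClosure ℚ),
          Data a P ρ → (∀ i, UnramifiedAt B (primesOf (a i) (P i))) →
          ∀ β ∈ radicalField B a P ρ, β ≠ 0 → ¬ InDivisionGroup (Γ ⊔ group a) β →
            c / 4000 ^ r ≤ NumberField.absLogHeight₁ β) ∧
    (∃ c : ℝ, 0 < c ∧
      ∀ (r : ℕ) (a : Fin r → ℕ) (P : Fin r → Set ℕ) (ρ : Fin r → ℕ → AlgebraicClosure ℚ),
        Data a P ρ → ∀ S : Set ℕ, (∀ i, Disjoint S (primesOf (a i) (P i))) →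
        ∀ β ∈ radicalField (cyclotomicField S) a P ρ, β ≠ 0 → ¬ InDivisionGroup (group a) β →
          c / 4000 ^ r ≤ NumberField.absLogHeight₁ β) := by
  refine ⟨general, ?_⟩
  obtain ⟨c, hc, h⟩ := general ⊥ inferInstance ⊥
    ((Subgroup.fg_iff _).2 ⟨∅, Subgroup.closure_empty, Set.finite_empty⟩) ∅
    (fun p hp => absurd hp (Finset.notMem_empty p))
  refine ⟨c, hc, fun r a P ρ hdata S hS β hβ hβ0 hnd => ?_⟩
  refine h (cyclotomicField S) ?_ ?_ r a P ρ hdata ?_ β hβ hβ0 ?_
  · refine le_trans ?_ le_sup_right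
    rw [cyclotomicField, IntermediateField.adjoin_le_iff]
    rintro y ⟨m, hm, hy⟩
    exact IntermediateField.subset_adjoin _ _ (Or.inl ⟨m, hm.1, hy⟩)
  · intro g hg
    rw [Subgroup.mem_bot] at hg
    rw [hg]
    exact one_mem _
  · intro i F hF hnf p hp hdvd
    exact Set.disjoint_left.1 (hS i)
      (Pool.Agent.Y730.RF.cyc_unram (hF := hnf) hF hp.1 hdvd) hp
  · rwa [bot_sup_eq]

end Pool.Agent.Results.MP_f61260_nt.MixedRadicalFields
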