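import Mathlib
import Pool.Agent.Y730.RD.Final

set_option autoImplicit false

/-!
# Small points of fields generated by radicals of infinitely many prime orders

All fields are subfields of `AlgebraicClosure ℚ`.
-/

namespace Pool.Agent.Results.MP_f61260_nt.RealRadicalFields

/-- `β` lies in the division group of `⟨a⟩`: a positive power of `β` is a power of `a` -/
def InDivisionGroup (a : ℕ) (β : AlgebraicClosure ℚ) : Prop :=
  ∃ m : ℕ, 0 < m ∧ ∃ k : ℤ, β ^ m = (a : AlgebraicClosure ℚ) ^ k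

/-- `p` is a Wieferich prime to the base `a`: a prime with `p ∤ a` and `p² ∣ a^(p-1) - 1` -/
def IsWieferich (a p : ℕ) : Prop :=
  p.Prime ∧ ¬ p ∣ a ∧ (p : ℤ) ^ 2 ∣ (a : ℤ) ^ (p - 1) - 1

/-- the Wieferich primes in `P` are odd and the sum of `(log p) / p` over them is at most
`(log a) / 40` -/
def FewWieferich (a : ℕ) (P : Set ℕ) : Prop :=
  ∀ F : Finset ℕ, (∀ p ∈ F, p ∈ P ∧ IsWieferich a p) →
    2 ∉ F ∧ ∑ p ∈ F, Real.log p / p ≤ Real.log a / 40

/-- the positive integers all of whose prime factors belong to `P` and which are not divisible by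
the square of a Wieferich prime -/
def Exponents (a : ℕ) (P : Set ℕ) : Set ℕ :=
  {n | 0 < n ∧ ∀ p : ℕ, p.Prime → p ∣ n → p ∈ P ∧ (IsWieferich a p → ¬ p ^ 2 ∣ n)}

/-- `r n` is a compatible choice of `a^(1/n)`, for all `n` -/
def IsRootSystem (a : ℕ) (r : ℕ → AlgebraicClosure ℚ) : Prop :=
  r 1 = a ∧ ∀ m n : ℕ, 0 < m → 0 < n → r (m * n) ^ m = r n

/-- the field `ℚ(a^(1/n) : n ∈ Exponents a P)` -/
noncomputable def radicalField (a : ℕ) (P : Set ℕ) (r : ℕ → AlgebraicClosure ℚ) :
    IntermediateField ℚ (AlgebraicClosure ℚ) :=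
  IntermediateField.adjoin ℚ {y | ∃ n ∈ Exponents a P, y = r n}

open Pool.Agent.Y730.RD in
lemma admissible {a : ℕ} {P : Set ℕ} (hP : FewWieferich a P) {n : ℕ} (hn : n ∈ Exponents a P) :
    Admissible a n := by
  obtain ⟨hn0, h⟩ := hn
  have hmem : ∀ p ∈ wiefPrimes a n, p ∈ P ∧ IsWieferich a p := by
    intro p hp
    obtain ⟨h1, h2, h3, h4⟩ := (mem_wiefPrimes hn0).1 hp
    exact ⟨(h p h1 h2).1, h1, h3, h4⟩
  have h1 := hP (wiefPrimes a n) hmem
  refine ⟨hn0, fun p hp => ⟨?_, ?_⟩, ?_⟩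
  · rintro rfl
    exact h1.1 hp
  · obtain ⟨h2, h3, h4, h5⟩ := (mem_wiefPrimes hn0).1 hp
    exact (h p h2 h3).2 (hmem p hp).2
  · have := h1.2
    linarith

lemma exponents_lcm {a : ℕ} {P : Set ℕ} {m n : ℕ} (hm : m ∈ Exponents a P)
    (hn : n ∈ Exponents a P) : Nat.lcm m n ∈ Exponents a P := by
  refine ⟨Nat.lcm_pos hm.1 hn.1, fun p hp hpl => ?_⟩
  refine ⟨?_, fun hw h2 => ?_⟩
  · rcases (hp.dvd_mul).1 (hpl.trans (Nat.lcm_dvd_mul m n)) with h | h
    · exact (hm.2 p hp h).1
    · exact (hn.2 p hp h).1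
  · have h3 : p ^ 2 ∣ m ∨ p ^ 2 ∣ n := by
      have hl0 : Nat.lcm m n ≠ 0 := (Nat.lcm_pos hm.1 hn.1).ne'
      rw [hp.pow_dvd_iff_le_factorization hl0, Nat.factorization_lcm hm.1.ne' hn.1.ne',
        Finsupp.sup_apply] at h2
      rcases le_sup_iff.1 h2 with h | h
      · left
        exact (hp.pow_dvd_iff_le_factorization hm.1.ne').2 h
      · right
        exact (hp.pow_dvd_iff_le_factorization hn.1.ne').2 h
    rcases h3 with h | h
    · exact (hm.2 p hp ((dvd_pow_self p two_ne_zero).trans h)).2 hw h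
    · exact (hn.2 p hp ((dvd_pow_self p two_ne_zero).trans h)).2 hw h

open IntermediateField in
lemma exists_single {a : ℕ} {P : Set ℕ} {r : ℕ → AlgebraicClosure ℚ} (hr : IsRootSystem a r)
    {β : AlgebraicClosure ℚ} (hβ : β ∈ radicalField a P r) :
    ∃ n ∈ Exponents a P, β ∈ ℚ⟮r n⟯ := by
  obtain ⟨T, hT, hβT⟩ := exists_finset_of_mem_adjoin hβ
  have hstep : ∀ m n : ℕ, 0 < n → m ∣ n → r m ∈ ℚ⟮r n⟯ := by
    rintro m n hn ⟨k, rfl⟩
    have hk : 0 < k := Nat.pos_of_ne_zero (by rintro rfl; simp at hn)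
    have hm : 0 < m := Nat.pos_of_ne_zero (by rintro rfl; simp at hn)
    rw [← hr.2 k m hk hm, mul_comm m k]
    exact pow_mem (mem_adjoin_simple_self ℚ _) _
  have key : ∀ T : Finset (AlgebraicClosure ℚ), (↑T : Set (AlgebraicClosure ℚ)) ⊆
      {y | ∃ n ∈ Exponents a P, y = r n} → ∃ n ∈ Exponents a P, ∀ y ∈ T, y ∈ ℚ⟮r n⟯ := by
    intro T
    classical
    induction T using Finset.induction_on with
    | empty =>
      intro _
      refine ⟨1, ⟨one_pos, fun p hp h => ?_⟩, fun y hy => absurd hy (Finset.notMem_empty y)⟩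
      exact absurd (Nat.dvd_one.1 h) hp.one_lt.ne'
    | insert y T _ ih =>
      intro hsub
      rw [Finset.coe_insert, Set.insert_subset_iff] at hsub
      obtain ⟨n, hn, hT⟩ := ih hsub.2
      obtain ⟨m, hm, rfl⟩ := hsub.1
      have hl := exponents_lcm hm hn
      refine ⟨Nat.lcm m n, hl, fun z hz => ?_⟩
      rcases Finset.mem_insert.1 hz with h | h
      · rw [h]
        exact hstep m _ hl.1 (Nat.dvd_lcm_left m n)
      · have hle : ℚ⟮r n⟯ ≤ ℚ⟮r (Nat.lcm m n)⟯ := by
          rw [adjoin_simple_le_iff]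
          exact hstep n _ hl.1 (Nat.dvd_lcm_right m n)
        exact hle (hT z h)
  obtain ⟨n, hn, hTn⟩ := key T hT
  refine ⟨n, hn, ?_⟩
  have hle : adjoin ℚ (↑T : Set (AlgebraicClosure ℚ)) ≤ ℚ⟮r n⟯ := by
    rw [adjoin_le_iff]
    exact hTn
  exact hle hβT

/-- **Small points of fields generated by radicals of infinitely many prime orders.**
Let `a ≥ 2` be a squarefree integer and let `P` be a set of primes (or of integers), finite or
infinite, such that the Wieferich primes `p ∈ P` to the base `a` are odd and satisfy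
`∑ (log p) / p ≤ (log a) / 40`. Let `r n = a^(1/n)` be a compatible choice of roots of `a`, and let
`L` be the field generated by the `a^(1/n)` for all `n` all of whose prime factors belong to `P` and
which are not divisible by the square of a Wieferich prime. Then every nonzero `β ∈ L` which does
not lie in the division group of `⟨a⟩` has absolute logarithmic Weil height at least `1 / 4000`. -/
theorem result :
    ∀ a : ℕ, Squarefree a → 2 ≤ a → ∀ P : Set ℕ, FewWieferich a P →
      ∀ r : ℕ → AlgebraicClosure ℚ, IsRootSystem a r →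
        ∀ β ∈ radicalField a P r, β ≠ 0 → ¬ InDivisionGroup a β →
          1 / 4000 ≤ NumberField.absLogHeight₁ β := by
  intro a ha ha2 P hP r hr β hβ hβ0 hnd
  obtain ⟨n, hn, hβn⟩ := exists_single hr hβ
  by_contra hlt
  push Not at hlt
  have hrn : r n ^ n = (a : AlgebraicClosure ℚ) := by
    have := hr.2 n 1 hn.1 one_pos
    rw [mul_one] at this
    rw [this, hr.1]
  exact hnd (Pool.Agent.Y730.RD.small_points ha ha2 (admissible hP hn) (r n) β hrn hβn hβ0 hlt)

end Pool.Agent.Results.MP_f61260_nt.RealRadicalFields
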